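import Pool.Agent.Q123.VQ.Sets

/-!
Problem MP_c7a479_co (maximum size of a variational set of permutation cubes): the families of
permutation cubes which have a compatible operation are the homomorphic families over abelian groups.
-/

set_option autoImplicit false

open Function

namespace Pool.Agent.Results.MP_c7a479_co.CompatibleCharacterisation

/-- `C : [n]^m → [n]` is an `m`-dimensional permutation cube of order `n`. -/
def IsPermutationCube (m n : ℕ) (C : (Fin m → Fin n) → Fin n) : Prop :=
  ∀ (i : Fin m) (x : Fin m → Fin n), Bijective (fun t : Fin n => C (update x i t))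

/-- The family `C` has a compatible operation of some arity `r`: an operation `F i` on the
positions of each axis `i` and an operation `H j` on the symbols of each cube `j` with
`C j (F (x¹, …, xʳ)) = H j (C j x¹, …, C j xʳ)` (`F` applied coordinatewise), and there are two
variables `s ≠ t` and a base point `e` such that every `F i` is bijective in the variable `s`, and
also in the variable `t`, if all other variables are equal to `e i`. -/
def HasCompatibleOperation {m n k : ℕ} (C : Fin k → (Fin m → Fin n) → Fin n) : Prop :=
  ∃ (r : ℕ) (s t : Fin r) (F : Fin m → (Fin r → Fin n) → Fin n)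
    (H : Fin k → (Fin r → Fin n) → Fin n) (e : Fin m → Fin n),
    s ≠ t ∧ (∀ i, Bijective fun x => F i (update (fun _ => e i) s x)) ∧
      (∀ i, Bijective fun x => F i (update (fun _ => e i) t x)) ∧
      ∀ j (X : Fin r → Fin m → Fin n),
        C j (fun i => F i (fun a => X a i)) = H j (fun a => C j (X a))

/-- After relabelling the positions of the axes (by `τ i`) and the symbols (by `σ j`) with the
elements of the group `G`, every cube is a sum of endomorphisms of `G` applied to the coordinates. -/
def IsHomomorphic (G : Type) [AddCommGroup G] {m n k : ℕ}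
    (C : Fin k → (Fin m → Fin n) → Fin n) : Prop :=
  ∃ (τ : Fin m → (Fin n ≃ G)) (σ : Fin k → (Fin n ≃ G)) (φ : Fin k → Fin m → (G →+ G)),
    ∀ j x, σ j (C j x) = ∑ i, φ j i (τ i (x i))

theorem result :
    ∀ (m n k : ℕ) (C : Fin k → (Fin m → Fin n) → Fin n), 2 ≤ m → 1 ≤ n →
      (∀ j, IsPermutationCube m n (C j)) →
      (HasCompatibleOperation C ↔
        ∃ (G : Type) (_ : AddCommGroup G), Nat.card G = n ∧ IsHomomorphic G C) := by
  intro m n k C hm hn hC
  constructor
  · intro h
    exact Q123.VQ.homomorphic_of_op hm hn C hC h
  · rintro ⟨G, _, -, h⟩
    exact Q123.VQ.op_of_homomorphic hn C G h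

end Pool.Agent.Results.MP_c7a479_co.CompatibleCharacterisation
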