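import Pool.Agent.Q114.CubeExist

set_option autoImplicit false

/-!
# MP_c7a479_co: existence of variational cubes, all dimensions and orders

There are `m` orthogonal `m`-dimensional permutation cubes of order `n` (a variational cube) if and
only if `n ≠ 2` and `(m, n) ≠ (2, 6)`.  The new case is `m = 3`, `n = 6`.
-/

namespace Pool.Agent.Results.MP_c7a479_co.OrthogonalCubesExist

open Pool.Agent.H430R2.PermCubes

/-- (i) For all `m, n ≥ 2` a variational cube of dimension `m` and order `n` exists if and only if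
`n ≠ 2` and `(m, n) ≠ (2, 6)`.  (ii) In particular it exists for `m = 3`, `n = 6`, and
`π_3(6)` is three or four. -/
theorem result :
    (∀ m n : ℕ, 2 ≤ m → 2 ≤ n →
      ((∃ C : Fin m → (Fin m → Fin n) → Fin n, IsVariationalSet m n m C) ↔
        n ≠ 2 ∧ ¬ (m = 2 ∧ n = 6))) ∧
    (IsPi 3 6 3 ∨ IsPi 3 6 4) :=
  ⟨fun m n hm hn => Pool.Agent.Q114.CubeExist.main m n hm hn,
    Pool.Agent.Q114.CubeExist.three_six⟩

end Pool.Agent.Results.MP_c7a479_co.OrthogonalCubesExist
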